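import Mathlib

/-!
# A graph with repeated paint costs before the frugal distinguishing number

The graph: a 9-cycle with two leaves attached to every third vertex. Its paint cost spectrum
starts with `ρ^2 = ρ^3 = 4`, `ρ^4 = 3 = Fix`.
-/

set_option autoImplicit false

namespace Pool.Agent.Results.MP_8484b9_co.RepeatedCost

section defs

variable {V : Type} [Fintype V] (G : SimpleGraph V)

/-- The colouring `c` is distinguishing: the identity is the only automorphism preserving it. -/
def IsDistinguishing {C : Type} (c : V → C) : Prop :=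
  ∀ φ : G ≃g G, (∀ v, c (φ v) = c v) → ∀ v, φ v = v

/-- The distinguishing number `D(G)`: the least `d` such that `G` has a `d`-distinguishing
colouring. -/
noncomputable def distNumber : ℕ := sInf {d | ∃ c : V → Fin d, IsDistinguishing G c}

/-- `S` is a fixing set: the identity is the only automorphism fixing every vertex of `S`. -/
def IsFixing (S : Finset V) : Prop := ∀ φ : G ≃g G, (∀ v ∈ S, φ v = v) → ∀ v, φ v = v

/-- The fixing number: the least size of a fixing set. -/
noncomputable def fixNumber : ℕ := sInf {k | ∃ S : Finset V, IsFixing G S ∧ S.card = k}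

/-- The paint cost `ρ^d(G)`: the minimum, over all `d`-distinguishing colourings `c` and all colour
classes of `c`, of the number of vertices outside that colour class. -/
noncomputable def paintCost (d : ℕ) : ℕ :=
  sInf {k | ∃ c : V → Fin d, IsDistinguishing G c ∧ ∃ j : Fin d, Nat.card {v | c v ≠ j} = k}

/-- The frugal distinguishing number `F(G)`: the least `d ≥ D(G)` with `ρ^d(G) = Fix(G)`. -/
noncomputable def frugalNumber : ℕ :=
  sInf {d | distNumber G ≤ d ∧ paintCost G d = fixNumber G}

end defs

/-! ### Refinement of invariants -/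

section refinement

variable {V : Type} [Fintype V] (G : SimpleGraph V) [DecidableRel G.Adj]

/-- one refinement step -/
def refine' (g : V → ℕ) (v : V) : ℕ := g v + 100 * ∑ u : V, if G.Adj v u then (g u) ^ 2 + 1 else 0

theorem refine_inv (φ : G ≃g G) (g : V → ℕ) (hg : ∀ v, g (φ v) = g v) (v : V) :
    refine' G g (φ v) = refine' G g v := by
  unfold refine'
  rw [hg v]
  congr 2
  rw [← Equiv.sum_comp φ.toEquiv]
  refine Finset.sum_congr rfl fun u _ => ?_
  have h1 : G.Adj (φ v) (φ.toEquiv u) ↔ G.Adj v u := φ.map_adj_iff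
  have h2 : g (φ.toEquiv u) = g u := hg u
  simp only [h1, h2]

theorem iterate_inv (φ : G ≃g G) (g : V → ℕ) (hg : ∀ v, g (φ v) = g v) (n : ℕ) :
    ∀ v, (refine' G)^[n] g (φ v) = (refine' G)^[n] g v := by
  induction n generalizing g with
  | zero => exact hg
  | succ n ih =>
    intro v
    rw [Function.iterate_succ_apply]
    exact ih _ (refine_inv G φ g hg) v

theorem rigid (n : ℕ) (g : V → ℕ) (hinj : Function.Injective ((refine' G)^[n] g)) (φ : G ≃g G)
    (hg : ∀ v, g (φ v) = g v) (v : V) : φ v = v :=
  hinj (iterate_inv G φ g hg n v)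

end refinement

/-! ### The graph -/

/-- The vertices: a cycle `inl 0, ..., inl 8` and six leaves `inr (i, b)`. -/
abbrev W : Type := ZMod 9 ⊕ (ZMod 3 × Bool)

/-- The vertex of the cycle to which the leaves `(i, b)` are attached: `0`, `3` or `6`. -/
def hub (i : ZMod 3) : ZMod 9 := ((3 * i.val : ℕ) : ZMod 9)

/-- adjacency -/
def adj : W → W → Bool
  | Sum.inl z, Sum.inl z' => z' = z + 1 || z = z' + 1
  | Sum.inl z, Sum.inr (i, _) => z = hub i
  | Sum.inr (i, _), Sum.inl z => z = hub i
  | Sum.inr _, Sum.inr _ => false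

theorem adj_symm : ∀ x y, adj x y = true → adj y x = true := by decide +kernel

theorem adj_irrefl : ∀ x, adj x x = false := by decide +kernel

/-- A 9-cycle with two leaves attached to every third vertex. -/
def H : SimpleGraph W where
  Adj x y := adj x y = true
  symm := ⟨adj_symm⟩
  loopless := ⟨fun x h => by rw [adj_irrefl x] at h; exact Bool.false_ne_true h⟩

instance : DecidableRel H.Adj := fun x y => inferInstanceAs (Decidable (adj x y = true))

/-- a 2-colouring -/
def c2 : W → Fin 2
  | Sum.inl z => if z = 1 then 1 else 0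
  | Sum.inr (_, b) => if b then 1 else 0

/-- a 4-colouring -/
def c4 : W → Fin 4
  | Sum.inl _ => 0
  | Sum.inr (i, b) => if b then (if i = 0 then 1 else if i = 1 then 2 else 3) else 0

set_option maxRecDepth 100000 in
theorem inj2 : Function.Injective ((refine' H)^[4] (fun v => (c2 v).val)) := by
  decide +kernel

set_option maxRecDepth 100000 in
theorem inj4 : Function.Injective ((refine' H)^[4] (fun v => (c4 v).val)) := by
  decide +kernel

theorem dist2 : IsDistinguishing H c2 := fun φ hφ =>
  rigid H 4 _ inj2 φ fun v => by rw [hφ]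

theorem dist4 : IsDistinguishing H c4 := fun φ hφ =>
  rigid H 4 _ inj4 φ fun v => by rw [hφ]

/-! ### Automorphisms -/

/-- exchange the two leaves at the hub `k` -/
def tauF (k : ZMod 3) : W → W
  | Sum.inl z => Sum.inl z
  | Sum.inr (i, b) => if i = k then Sum.inr (i, !b) else Sum.inr (i, b)

theorem tauF_self (k : ZMod 3) (b : Bool) : tauF k (Sum.inr (k, b)) = Sum.inr (k, !b) :=
  if_pos rfl

theorem tauF_ne {k i : ZMod 3} (h : i ≠ k) (b : Bool) :
    tauF k (Sum.inr (i, b)) = Sum.inr (i, b) := if_neg h

theorem tauF_inv : ∀ k x, tauF k (tauF k x) = x := by decide +kernel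

theorem tauF_adj : ∀ k x y, adj (tauF k x) (tauF k y) = adj x y := by decide +kernel

/-- exchange the two leaves at the hub `k` -/
def tau (k : ZMod 3) : H ≃g H where
  toEquiv := ⟨tauF k, tauF k, tauF_inv k, tauF_inv k⟩
  map_rel_iff' := by
    intro x y
    show adj (tauF k x) (tauF k y) = true ↔ adj x y = true
    rw [tauF_adj]

/-- the reflection fixing the hub `k` and respecting the choice `x` of a leaf at every hub -/
def reflF (x : ZMod 3 → Bool) (k : ZMod 3) : W → W
  | Sum.inl z => Sum.inl (2 * hub k - z)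
  | Sum.inr (i, b) => Sum.inr (2 * k - i, xor b (xor (x i) (x (2 * k - i))))

theorem reflF_inr (x : ZMod 3 → Bool) (k i : ZMod 3) (b : Bool) : reflF x k (Sum.inr (i, b)) =
    Sum.inr (2 * k - i, xor b (xor (x i) (x (2 * k - i)))) := rfl

theorem reflF_inl (x : ZMod 3 → Bool) (k : ZMod 3) (z : ZMod 9) : reflF x k (Sum.inl z) =
    Sum.inl (2 * hub k - z) := rfl

theorem third : ∀ k l : ZMod 3, k ≠ l → ∃ m : ZMod 3, 2 * m - k = l ∧ 2 * m - l = k ∧
    2 * m - m = m ∧ ∀ i, i = k ∨ i = l ∨ i = m := by decide

theorem xor_aux : ∀ b q p : Bool, xor b (xor q p) = p → b = q := by decide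

theorem reflF_inv : ∀ x k v, reflF x k (reflF x k v) = v := by decide +kernel

theorem reflF_adj : ∀ x k u v, adj (reflF x k u) (reflF x k v) = adj u v := by decide +kernel

/-- the reflection fixing the hub `k` and respecting the choice `x` of a leaf at every hub -/
def refl (x : ZMod 3 → Bool) (k : ZMod 3) : H ≃g H where
  toEquiv := ⟨reflF x k, reflF x k, reflF_inv x k, reflF_inv x k⟩
  map_rel_iff' := by
    intro u v
    show adj (reflF x k u) (reflF x k v) = true ↔ adj u v = true
    rw [reflF_adj]

theorem leaves_ne {C : Type} (c : W → C) (hc : IsDistinguishing H c) (k : ZMod 3) :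
    c (Sum.inr (k, false)) ≠ c (Sum.inr (k, true)) := by
  intro h
  have h1 := hc (tau k) (by
    rintro (z | ⟨i, b⟩)
    · rfl
    · show c (tauF k (Sum.inr (i, b))) = c (Sum.inr (i, b))
      by_cases hik : i = k
      · subst hik
        rw [tauF_self]
        cases b
        · exact h.symm
        · exact h
      · rw [tauF_ne hik]) (Sum.inr (k, false))
  have h2 : tauF k (Sum.inr (k, false)) = Sum.inr (k, false) := h1
  rw [tauF_self] at h2
  simp at h2

/-- every distinguishing colouring has a leaf outside a given colour class at every hub -/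
theorem exists_choice {C : Type} (c : W → C) (hc : IsDistinguishing H c) (j : C) :
    ∃ x : ZMod 3 → Bool, ∀ k, c (Sum.inr (k, x k)) ≠ j := by
  have h : ∀ k, ∃ b, c (Sum.inr (k, b)) ≠ j := by
    intro k
    by_contra hcon
    push Not at hcon
    exact leaves_ne c hc k (by rw [hcon, hcon])
  choose x hx using h
  exact ⟨x, hx⟩

theorem card_ge {C : Type} (c : W → C) (hc : IsDistinguishing H c) (j : C) :
    3 ≤ Nat.card {v | c v ≠ j} := by
  obtain ⟨x, hx⟩ := exists_choice c hc j
  have h1 : Nat.card (ZMod 3) = 3 := by simp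
  rw [← h1]
  exact Nat.card_le_card_of_injective
    (fun k : ZMod 3 => (⟨Sum.inr (k, x k), hx k⟩ : {v | c v ≠ j})) (by
      intro k l h
      have := congrArg Subtype.val h
      simp only [Sum.inr.injEq, Prod.mk.injEq] at this
      exact this.1)

/-- With three colours the cost is at least four. -/
theorem card_ge_four (c : W → Fin 3) (hc : IsDistinguishing H c) (j : Fin 3) :
    4 ≤ Nat.card {v | c v ≠ j} := by
  classical
  by_contra hlt
  have h3 := card_ge c hc j
  have hcard : Nat.card {v | c v ≠ j} = 3 := by omega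
  obtain ⟨x, hx⟩ := exists_choice c hc j
  -- the vertices outside the colour class are exactly the chosen leaves
  have hT : ∀ v, c v ≠ j → ∃ k, v = Sum.inr (k, x k) := by
    intro v hv
    by_contra hcon
    push Not at hcon
    have h4 : Nat.card (Option (ZMod 3)) ≤ Nat.card {v | c v ≠ j} :=
      Nat.card_le_card_of_injective
        (fun o : Option (ZMod 3) => (match o with
          | none => ⟨v, hv⟩
          | some k => ⟨Sum.inr (k, x k), hx k⟩ : {v | c v ≠ j})) (by
          rintro (_ | k) (_ | l) h
          · rfl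
          · exact absurd (congrArg Subtype.val h) (hcon l)
          · exact absurd (congrArg Subtype.val h).symm (hcon k)
          · have := congrArg Subtype.val h
            simp only [Sum.inr.injEq, Prod.mk.injEq] at this
            rw [this.1])
    have h5 : Nat.card (Option (ZMod 3)) = 4 := by
      rw [Nat.card_eq_fintype_card, Fintype.card_option, ZMod.card]
    omega
  have hinl : ∀ z, c (Sum.inl z) = j := by
    intro z
    by_contra h
    obtain ⟨k, hk⟩ := hT _ h
    simp at hk
  have hinr : ∀ k b, b ≠ x k → c (Sum.inr (k, b)) = j := by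
    intro k b hb
    by_contra h
    obtain ⟨l, hl⟩ := hT _ h
    simp only [Sum.inr.injEq, Prod.mk.injEq] at hl
    obtain ⟨h6, h7⟩ := hl
    subst h6
    exact hb h7
  -- two of the chosen leaves have the same colour
  have hpig : ∀ a b d e : Fin 3, a ≠ e → b ≠ e → d ≠ e → a = b ∨ b = d ∨ a = d := by decide
  have hpair : ∃ k l : ZMod 3, k ≠ l ∧ c (Sum.inr (k, x k)) = c (Sum.inr (l, x l)) := by
    rcases hpig _ _ _ _ (hx 0) (hx 1) (hx 2) with h | h | h
    · exact ⟨0, 1, by decide, h⟩
    · exact ⟨1, 2, by decide, h⟩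
    · exact ⟨0, 2, by decide, h⟩
  obtain ⟨k, l, hkl, hc2⟩ := hpair
  obtain ⟨m, hm1, hm2, hm3, hm4⟩ := third k l hkl
  have hfix : ∀ v, c (reflF x m v) = c v := by
    rintro (z | ⟨i, b⟩)
    · rw [reflF_inl, hinl, hinl]
    · rw [reflF_inr]
      by_cases hb : b = x i
      · subst hb
        rw [← Bool.xor_assoc, Bool.xor_self, Bool.false_xor]
        rcases hm4 i with rfl | rfl | rfl
        · rw [hm1]; exact hc2.symm
        · rw [hm2]; exact hc2
        · rw [hm3]
      · rw [hinr i b hb, hinr]
        intro h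
        exact hb (xor_aux _ _ _ h)
  have h8 : reflF x m (Sum.inr (k, x k)) = Sum.inr (k, x k) :=
    hc (refl x m) hfix (Sum.inr (k, x k))
  rw [reflF_inr] at h8
  simp only [Sum.inr.injEq, Prod.mk.injEq] at h8
  rw [hm1] at h8
  exact hkl h8.1.symm

/-! ### The invariants of the graph -/

theorem le_sInf' {P : ℕ → Prop} {m : ℕ} (hne : ∃ n, P n) (h : ∀ n, P n → m ≤ n) :
    m ≤ sInf {n | P n} := le_csInf hne h

theorem distNumber_eq : distNumber H = 2 := by
  apply le_antisymm
  · exact Nat.sInf_le ⟨c2, dist2⟩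
  · refine le_sInf' ⟨2, c2, dist2⟩ ?_
    rintro d ⟨c, hc⟩
    by_contra hlt
    have h1 : Subsingleton (Fin d) := Fin.subsingleton_iff_le_one.mpr (by omega)
    exact leaves_ne c hc 0 (Subsingleton.elim _ _)

theorem fixNumber_eq : fixNumber H = 3 := by
  have hS : IsFixing H (Finset.univ.image fun i : ZMod 3 => (Sum.inr (i, true) : W)) := by
    intro φ hφ
    refine dist4 φ fun v => ?_
    have h1 : ∀ i : ZMod 3, φ (Sum.inr (i, true)) = Sum.inr (i, true) := fun i =>
      hφ _ (Finset.mem_image_of_mem _ (Finset.mem_univ i))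
    by_cases hv : ∃ i : ZMod 3, v = Sum.inr (i, true)
    · obtain ⟨i, rfl⟩ := hv
      rw [h1]
    · have hv' : ∀ u : W, (¬ ∃ i : ZMod 3, u = Sum.inr (i, true)) → c4 u = 0 := by
        decide +kernel
      rw [hv' v hv, hv' (φ v)]
      rintro ⟨i, hi⟩
      exact hv ⟨i, φ.injective (by rw [hi, h1])⟩
  apply le_antisymm
  · exact Nat.sInf_le ⟨_, hS, by decide +kernel⟩
  · refine le_sInf' ⟨_, _, hS, rfl⟩ ?_
    rintro n ⟨S, hS', rfl⟩
    have h1 : ∀ k : ZMod 3, ∃ b, (Sum.inr (k, b) : W) ∈ S := by
      intro k
      by_contra hcon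
      push Not at hcon
      have h2 := hS' (tau k) (by
        rintro (z | ⟨i, b⟩) hv
        · rfl
        · show tauF k (Sum.inr (i, b)) = Sum.inr (i, b)
          rw [tauF_ne]
          rintro rfl
          exact hcon b hv) (Sum.inr (k, false))
      have h3 : tauF k (Sum.inr (k, false)) = Sum.inr (k, false) := h2
      rw [tauF_self] at h3
      simp at h3
    choose x hx using h1
    have h4 : (Finset.univ.image fun i : ZMod 3 => (Sum.inr (i, x i) : W)) ⊆ S := by
      intro v hv
      obtain ⟨i, _, rfl⟩ := Finset.mem_image.mp hv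
      exact hx i
    have h5 := Finset.card_le_card h4
    rwa [Finset.card_image_of_injective, Finset.card_univ, ZMod.card] at h5
    intro i j h
    simp only [Sum.inr.injEq, Prod.mk.injEq] at h
    exact h.1

theorem cost2 : paintCost H 2 = 4 := by
  have h0 : Nat.card {v | c2 v ≠ 0} = 4 := by
    rw [Nat.card_eq_fintype_card]; decide +kernel
  apply le_antisymm
  · exact Nat.sInf_le ⟨c2, dist2, 0, h0⟩
  · refine le_sInf' ⟨_, c2, dist2, 0, rfl⟩ ?_
    rintro k ⟨c, hc, j, rfl⟩
    have hd : IsDistinguishing H (fun v => Fin.castSucc (c v)) := fun φ hφ =>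
      hc φ fun v => Fin.castSucc_injective _ (hφ v)
    have h1 := card_ge_four _ hd (Fin.castSucc j)
    have h2 : {v | Fin.castSucc (c v) ≠ Fin.castSucc j} = {v | c v ≠ j} := by
      ext v
      simp
    rwa [h2] at h1

theorem cost3 : paintCost H 3 = 4 := by
  have hd : IsDistinguishing H (fun v => Fin.castSucc (c2 v)) := fun φ hφ =>
    dist2 φ fun v => Fin.castSucc_injective _ (hφ v)
  have h0 : Nat.card {v | Fin.castSucc (c2 v) ≠ 0} = 4 := by
    rw [Nat.card_eq_fintype_card]; decide +kernel
  apply le_antisymm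
  · exact Nat.sInf_le ⟨_, hd, 0, h0⟩
  · refine le_sInf' ⟨_, _, hd, 0, rfl⟩ ?_
    rintro k ⟨c, hc, j, rfl⟩
    exact card_ge_four c hc j

theorem cost4 : paintCost H 4 = 3 := by
  have h0 : Nat.card {v | c4 v ≠ 0} = 3 := by
    rw [Nat.card_eq_fintype_card]; decide +kernel
  apply le_antisymm
  · exact Nat.sInf_le ⟨c4, dist4, 0, h0⟩
  · refine le_sInf' ⟨_, c4, dist4, 0, rfl⟩ ?_
    rintro k ⟨c, hc, j, rfl⟩
    exact card_ge c hc j

theorem frugalNumber_eq : frugalNumber H = 4 := by
  unfold frugalNumber
  rw [distNumber_eq, fixNumber_eq]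
  apply le_antisymm
  · exact Nat.sInf_le ⟨by norm_num, cost4⟩
  · refine le_sInf' ⟨4, by norm_num, cost4⟩ ?_
    rintro d ⟨h1, h2⟩
    by_contra hlt
    have h3 : d = 2 ∨ d = 3 := by omega
    rcases h3 with rfl | rfl
    · rw [cost2] at h2; omega
    · rw [cost3] at h2; omega

/-- **Repeated paint costs.** Some finite graph has distinguishing number `2`, fixing number `3`,
frugal distinguishing number `4` and paint costs `ρ^2 = ρ^3 = 4`, `ρ^4 = 3`; in particular
`ρ^D = ρ^(D+1) ≠ Fix` and `D + 1 < F`. -/
theorem result : ∃ (V : Type) (_ : Fintype V) (G : SimpleGraph V),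
    distNumber G = 2 ∧ fixNumber G = 3 ∧ frugalNumber G = 4 ∧
    paintCost G 2 = 4 ∧ paintCost G 3 = 4 ∧ paintCost G 4 = 3 ∧
    paintCost G (distNumber G) = paintCost G (distNumber G + 1) ∧
    paintCost G (distNumber G) ≠ fixNumber G ∧ distNumber G + 1 < frugalNumber G := by
  refine ⟨W, inferInstance, H, distNumber_eq, fixNumber_eq, frugalNumber_eq, cost2, cost3, cost4,
    ?_, ?_, ?_⟩
  · rw [distNumber_eq, cost2, cost3]
  · rw [distNumber_eq, cost2, fixNumber_eq]; norm_num
  · rw [distNumber_eq, frugalNumber_eq]; norm_num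

end Pool.Agent.Results.MP_8484b9_co.RepeatedCost
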